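import Pool.Agent.W902.C6.Stm2
import Pool.Agent.W924.C6.MAP
import Pool.Agent.W917.C6.Code
import Pool.Agent.W902.C6.Up

set_option autoImplicit false

open Pool.Agent.H800R3 Filter

namespace Pool.Agent.W12.C6.Fa

open Pool.Agent.W902.C6 Pool.Agent.W924.C6.MAP

/-- order preserving bijections keeping the signs of `s - 1` and `t - 1` -/
def Iso0 (A T A' T' : Finset ℝ) : Prop :=
  ∃ f h : ℝ → ℝ,
    (∀ s ∈ A, f s ∈ A') ∧ (∀ s' ∈ A', ∃ s ∈ A, f s = s') ∧
    (∀ t ∈ T, h t ∈ T') ∧ (∀ t' ∈ T', ∃ t ∈ T, h t = t') ∧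
    (∀ s ∈ A, ∀ s' ∈ A, s < s' → f s < f s') ∧
    (∀ t ∈ T, ∀ t' ∈ T, t < t' → h t < h t') ∧
    (∀ s ∈ A, SignType.sign (f s - 1) = SignType.sign (s - 1)) ∧
    (∀ t ∈ T, SignType.sign (h t - 1) = SignType.sign (t - 1))

theorem map0 {A T A' T' : Finset ℝ} (hI : Iso0 A T A' T') :
    SameConf (std false A T) (std false A' T') := by
  classical
  obtain ⟨f, h, hf1, hf2, hh1, hh2, hfm, hhm, hf0, hh0⟩ := hI
  have sf : ∀ s ∈ A, ∀ s' ∈ A, SignType.sign (f s - f s') = SignType.sign (s - s') :=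
    fun s hs s' hs' => sign_mono hfm hs hs'
  have sh : ∀ s ∈ T, ∀ s' ∈ T, SignType.sign (h s - h s') = SignType.sign (s - s') :=
    fun s hs s' hs' => sign_mono hhm hs hs'
  have sneg : ∀ x y : ℝ, SignType.sign x = SignType.sign y →
      SignType.sign (-x) = SignType.sign (-y) := by
    intro x y hxy
    rw [Left.sign_neg, Left.sign_neg, hxy]
  -- orientations
  have key : ∀ a b c : ℕ × ℝ, Adm false A T a → Adm false A T b → Adm false A T c →
      orient (pt (im f h a)) (pt (im f h b)) (pt (im f h c)) = orient (pt a) (pt b) (pt c) := by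
    refine perm_red _ ?_ ?_ ?_
    · intro a b c H hb hc ha
      rw [orient_cyc (pt (im f h a)), orient_cyc (pt a)]
      exact H ha hb hc
    · intro a b c H hb ha hc
      rw [orient_swap, orient_swap (pt a)]
      rw [H ha hb hc]
    · rintro ⟨k1, r1⟩ ⟨k2, r2⟩ ⟨k3, r3⟩ h12 h23 ha hb hc
      unfold Adm at ha hb hc
      simp only at ha hb hc h12 h23
      rcases ha with ⟨rfl, he⟩ | ⟨rfl, ha⟩ | ⟨rfl, ha⟩
      · exact absurd he (by simp)
      · rcases hb with ⟨rfl, _⟩ | ⟨rfl, hb⟩ | ⟨rfl, hb⟩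
        · omega
        · rcases hc with ⟨rfl, _⟩ | ⟨rfl, hc⟩ | ⟨rfl, hc⟩
          · omega
          · simp only [pt, im, if_true, one_ne_zero, if_false]
            unfold orient D
            simp only
            rw [show (f r2 - f r1) * ((1 : ℝ) - 1) - (1 - 1) * (f r3 - f r1) = 0 by ring,
              show (r2 - r1) * ((1 : ℝ) - 1) - (1 - 1) * (r3 - r1) = 0 by ring]
          · simp only [pt, im, if_true, one_ne_zero, if_false, OfNat.ofNat_ne_zero,
              OfNat.ofNat_ne_one]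
            unfold orient D
            simp only
            rw [show (f r2 - f r1) * (h r3 - 1) - (1 - 1) * ((1 : ℝ) - f r1) =
                (f r2 - f r1) * (h r3 - 1) by ring,
              show (r2 - r1) * (r3 - 1) - (1 - 1) * ((1 : ℝ) - r1) = (r2 - r1) * (r3 - 1) by ring,
              sign_mul, sign_mul, sf _ hb _ ha, hh0 _ hc]
        · rcases hc with ⟨rfl, _⟩ | ⟨rfl, hc⟩ | ⟨rfl, hc⟩
          · omega
          · omega
          · simp only [pt, im, if_true, one_ne_zero, if_false, OfNat.ofNat_ne_zero,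
              OfNat.ofNat_ne_one]
            unfold orient D
            simp only
            rw [show (1 - f r1) * (h r3 - 1) - (h r2 - 1) * ((1 : ℝ) - f r1) =
                -((f r1 - 1) * (h r3 - h r2)) by ring,
              show (1 - r1) * (r3 - 1) - (r2 - 1) * ((1 : ℝ) - r1) =
                -((r1 - 1) * (r3 - r2)) by ring]
            apply sneg
            rw [sign_mul, sign_mul, sh _ hc _ hb, hf0 _ ha]
      · have h2 : k2 = 2 := by
          rcases hb with ⟨rfl, _⟩ | ⟨rfl, hb⟩ | ⟨rfl, hb⟩ <;> omega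
        have h3 : k3 = 2 := by
          rcases hc with ⟨rfl, _⟩ | ⟨rfl, hc⟩ | ⟨rfl, hc⟩ <;> omega
        subst h2 h3
        simp only [pt, im, if_true, one_ne_zero, if_false, OfNat.ofNat_ne_zero,
          OfNat.ofNat_ne_one]
        unfold orient D
        simp only
        rw [show ((1 : ℝ) - 1) * (h r3 - h r1) - (h r2 - h r1) * (1 - 1) = 0 by ring,
          show ((1 : ℝ) - 1) * (r3 - r1) - (r2 - r1) * (1 - 1) = 0 by ring]
  -- well-definedness and injectivity
  have inj : ∀ a b : ℕ × ℝ, Adm false A T a → Adm false A T b →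
      (pt (im f h a) = pt (im f h b) ↔ pt a = pt b) := by
    have fe : ∀ s ∈ A, ∀ s' ∈ A, (f s = f s' ↔ s = s') := by
      intro s hs s' hs'
      constructor
      · intro H
        rcases lt_trichotomy s s' with h | h | h
        · exact absurd H (hfm s hs s' hs' h).ne
        · exact h
        · exact absurd H (hfm s' hs' s hs h).ne'
      · rintro rfl; rfl
    have he : ∀ s ∈ T, ∀ s' ∈ T, (h s = h s' ↔ s = s') := by
      intro s hs s' hs'
      constructor
      · intro H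
        rcases lt_trichotomy s s' with h | h | h
        · exact absurd H (hhm s hs s' hs' h).ne
        · exact h
        · exact absurd H (hhm s' hs' s hs h).ne'
      · rintro rfl; rfl
    rintro ⟨k1, r1⟩ ⟨k2, r2⟩ ha hb
    unfold Adm at ha hb
    simp only at ha hb
    rcases ha with ⟨rfl, -⟩ | ⟨rfl, ha⟩ | ⟨rfl, ha⟩ <;>
      rcases hb with ⟨rfl, -⟩ | ⟨rfl, hb⟩ | ⟨rfl, hb⟩
    · simp [pt, im]
    · simp [pt, im]
    · simp [pt, im]
    · simp [pt, im]
    · simp [pt, im, fe _ ha _ hb]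
    · have e1 := sign_one (hf0 _ ha)
      have e2 := sign_one (hh0 _ hb)
      simp only [pt, im, one_ne_zero, if_false, if_true, OfNat.ofNat_ne_zero,
          OfNat.ofNat_ne_one, Prod.mk.injEq, e1]
      constructor
      · rintro ⟨p, q⟩
        exact ⟨p, (e2.1 q.symm).symm⟩
      · rintro ⟨p, q⟩
        exact ⟨p, (e2.2 q.symm).symm⟩
    · simp [pt, im]
    · have e1 := sign_one (hh0 _ ha)
      have e2 := sign_one (hf0 _ hb)
      simp only [pt, im, one_ne_zero, if_false, if_true, OfNat.ofNat_ne_zero,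
          OfNat.ofNat_ne_one, Prod.mk.injEq, e1]
      constructor
      · rintro ⟨p, q⟩
        exact ⟨(e2.1 p.symm).symm, q⟩
      · rintro ⟨p, q⟩
        exact ⟨(e2.2 p.symm).symm, q⟩
    · simp [pt, im, he _ ha _ hb]
  have adm' : ∀ a, Adm false A T a → Adm false A' T' (im f h a) := by
    rintro ⟨k, r⟩ ha
    unfold Adm at ha ⊢
    simp only at ha
    rcases ha with ⟨rfl, he⟩ | ⟨rfl, ha⟩ | ⟨rfl, ha⟩
    · left; exact ⟨rfl, he⟩
    · right; left
      exact ⟨rfl, by simpa [im] using hf1 _ ha⟩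
    · right; right
      exact ⟨rfl, by simpa [im] using hh1 _ ha⟩
  have hchoose : ∀ q : std false A T, ∃ a, Adm false A T a ∧ (q : Pt) = pt a := fun q => mem_std.1 q.2
  choose g hg1 hg2 using hchoose
  refine ⟨Equiv.ofBijective (fun q : std false A T =>
    (⟨pt (im f h (g q)), mem_std.2 ⟨_, adm' _ (hg1 q), rfl⟩⟩ : std false A' T')) ⟨?_, ?_⟩, ?_⟩
  · intro x y hxy
    apply Subtype.ext
    rw [hg2 x, hg2 y]
    exact (inj _ _ (hg1 x) (hg1 y)).1 (congrArg Subtype.val hxy)
  · rintro ⟨y, hy⟩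
    obtain ⟨⟨k, r⟩, hb, hyb⟩ := mem_std.1 hy
    have : ∃ a, Adm false A T a ∧ pt (im f h a) = pt (k, r) := by
      unfold Adm at hb
      simp only at hb
      rcases hb with ⟨rfl, he⟩ | ⟨rfl, hb⟩ | ⟨rfl, hb⟩
      · exact ⟨(0, 0), Or.inl ⟨rfl, he⟩, by simp [pt, im]⟩
      · obtain ⟨s, hs, rfl⟩ := hf2 _ hb
        exact ⟨(1, s), Or.inr (Or.inl ⟨rfl, hs⟩), by simp [pt, im]⟩
      · obtain ⟨s, hs, rfl⟩ := hh2 _ hb
        exact ⟨(2, s), Or.inr (Or.inr ⟨rfl, hs⟩), by simp [pt, im]⟩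
    obtain ⟨a, ha, hab⟩ := this
    refine ⟨⟨pt a, mem_std.2 ⟨a, ha, rfl⟩⟩, Subtype.ext ?_⟩
    change pt (im f h (g ⟨pt a, mem_std.2 ⟨a, ha, rfl⟩⟩)) = y
    rw [hyb, ← hab]
    refine (inj _ _ (hg1 _) ha).2 ?_
    exact (hg2 ⟨pt a, mem_std.2 ⟨a, ha, rfl⟩⟩).symm
  · intro a b c
    change orient (pt (im f h (g a))) (pt (im f h (g b))) (pt (im f h (g c))) =
      orient (a : Pt) b c
    rw [hg2 a, hg2 b, hg2 c]
    exact key _ _ _ (hg1 a) (hg1 b) (hg1 c)


/-- order isomorphism of finite sets of the same size -/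
lemma ordiso (X Y : Finset ℝ) (h : X.card = Y.card) : ∃ g : ℝ → ℝ, (∀ x ∈ X, g x ∈ Y) ∧
    (∀ y ∈ Y, ∃ x ∈ X, g x = y) ∧ ∀ x ∈ X, ∀ x' ∈ X, x < x' → g x < g x' := by
  classical
  obtain ⟨F, h1, h2, h3⟩ := Pool.Agent.W917.C6.Code.match_lists (fun _ => ()) (fun _ => ())
    (X.sort (· ≤ ·)) (Y.sort (· ≤ ·))
    ((Finset.sortedLT_sort _).pairwise) ((Finset.sortedLT_sort _).pairwise) (by
      rw [List.map_const', List.map_const', Finset.length_sort, Finset.length_sort, h])
  simp only [Finset.mem_sort] at h1 h2 h3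
  exact ⟨F, fun x hx => (h1 x hx).1, h3, h2⟩

open Classical in
/-- the three parts of a set -/
noncomputable def cd (A : Finset ℝ) : Fin 3 → ℕ :=
  ![(A.filter (fun s => s < 1)).card, (A.filter (fun s => s = 1)).card,
    (A.filter (fun s => 1 < s)).card]

lemma cd_le (A : Finset ℝ) (i : Fin 3) : cd A i ≤ A.card := by
  classical
  fin_cases i <;> exact Finset.card_filter_le _ _

lemma one_side (A A' : Finset ℝ) (h : cd A = cd A') : ∃ f : ℝ → ℝ,
    (∀ s ∈ A, f s ∈ A') ∧ (∀ s' ∈ A', ∃ s ∈ A, f s = s') ∧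
    (∀ s ∈ A, ∀ s' ∈ A, s < s' → f s < f s') ∧
    (∀ s ∈ A, SignType.sign (f s - 1) = SignType.sign (s - 1)) := by
  classical
  have h0 : (A.filter (fun s => s < 1)).card = (A'.filter (fun s => s < 1)).card := congrFun h 0
  have h1 : (A.filter (fun s => s = 1)).card = (A'.filter (fun s => s = 1)).card := congrFun h 1
  have h2 : (A.filter (fun s => 1 < s)).card = (A'.filter (fun s => 1 < s)).card := congrFun h 2
  obtain ⟨g, g1, g2, g3⟩ := ordiso _ _ h0
  obtain ⟨k, k1, k2, k3⟩ := ordiso _ _ h2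
  simp only [Finset.mem_filter] at g1 g2 g3 k1 k2 k3
  have hone : (1 : ℝ) ∈ A ↔ (1 : ℝ) ∈ A' := by
    have e : ∀ B : Finset ℝ, (1 : ℝ) ∈ B ↔ 0 < (B.filter (fun s => s = 1)).card := by
      intro B
      rw [Finset.card_pos]
      constructor
      · intro hB
        exact ⟨1, Finset.mem_filter.2 ⟨hB, rfl⟩⟩
      · rintro ⟨x, hx⟩
        rw [Finset.mem_filter] at hx
        rw [← hx.2]; exact hx.1
    rw [e A, e A', h1]
  set f : ℝ → ℝ := fun s => if s < 1 then g s else if s = 1 then 1 else k s with hf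
  have f1 : ∀ s, s < 1 → f s = g s := fun s hs => by simp [hf, hs]
  have f2 : f 1 = 1 := by simp [hf]
  have f3 : ∀ s, 1 < s → f s = k s := fun s hs => by simp [hf, not_lt.2 hs.le, hs.ne']
  refine ⟨f, ?_, ?_, ?_, ?_⟩
  · intro s hs
    rcases lt_trichotomy s 1 with h | h | h
    · rw [f1 s h]; exact (g1 s ⟨hs, h⟩).1
    · rw [h, f2]; rw [h] at hs; exact hone.1 hs
    · rw [f3 s h]; exact (k1 s ⟨hs, h⟩).1
  · intro s' hs'
    rcases lt_trichotomy s' 1 with h | h | h
    · obtain ⟨x, ⟨hx1, hx2⟩, hx3⟩ := g2 s' ⟨hs', h⟩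
      exact ⟨x, hx1, by rw [f1 x hx2]; exact hx3⟩
    · rw [h] at hs' ⊢
      exact ⟨1, hone.2 hs', f2⟩
    · obtain ⟨x, ⟨hx1, hx2⟩, hx3⟩ := k2 s' ⟨hs', h⟩
      exact ⟨x, hx1, by rw [f3 x hx2]; exact hx3⟩
  · intro s hs s' hs' hlt
    rcases lt_trichotomy s 1 with h | h | h
    · rcases lt_trichotomy s' 1 with h' | h' | h'
      · rw [f1 s h, f1 s' h']; exact g3 s ⟨hs, h⟩ s' ⟨hs', h'⟩ hlt
      · rw [f1 s h, h', f2]; exact (g1 s ⟨hs, h⟩).2
      · rw [f1 s h, f3 s' h']; exact (g1 s ⟨hs, h⟩).2.trans (k1 s' ⟨hs', h'⟩).2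
    · rcases lt_trichotomy s' 1 with h' | h' | h'
      · linarith
      · linarith
      · rw [h, f2, f3 s' h']; exact (k1 s' ⟨hs', h'⟩).2
    · rcases lt_trichotomy s' 1 with h' | h' | h'
      · linarith
      · linarith
      · rw [f3 s h, f3 s' h']; exact k3 s ⟨hs, h⟩ s' ⟨hs', h'⟩ hlt
  · intro s hs
    rcases lt_trichotomy s 1 with h | h | h
    · rw [f1 s h, sign_neg (sub_neg.2 h), sign_neg (sub_neg.2 (g1 s ⟨hs, h⟩).2)]
    · rw [h, f2]
    · rw [f3 s h, sign_pos (sub_pos.2 h), sign_pos (sub_pos.2 (k1 s ⟨hs, h⟩).2)]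

lemma card_A_le (A T : Finset ℝ) : A.card ≤ (std false A T).card := by
  classical
  rw [← Finset.card_image_of_injective A (f := fun s : ℝ => ((s, (1 : ℝ)) : Pt))
    (fun a b h => by simpa using h)]
  apply Finset.card_le_card
  intro x hx
  unfold std
  rw [Finset.mem_union, Finset.mem_union]
  exact Or.inr (Or.inl (by convert hx))

lemma card_T_le (A T : Finset ℝ) : T.card ≤ (std false A T).card := by
  classical
  rw [← Finset.card_image_of_injective T (f := fun t : ℝ => (((1 : ℝ), t) : Pt))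
    (fun a b h => by simpa using h)]
  apply Finset.card_le_card
  intro x hx
  unfold std
  rw [Finset.mem_union, Finset.mem_union]
  exact Or.inr (Or.inr (by convert hx))

theorem main : S_false := by
  classical
  refine ⟨1, 6, fun n => ?_⟩
  have key := classes_bound (β := (Fin 3 → Fin (n + 1)) × (Fin 3 → Fin (n + 1)))
    {S : Finset Pt | S.card = n ∧ ∃ A T : Finset ℝ, SameConf S (std false A T)} Set.univ
    Set.finite_univ
    (fun S b => ∃ A T : Finset ℝ, SameConf S (std false A T) ∧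
      (∀ i, ((b.1 i : Fin (n + 1)) : ℕ) = cd A i) ∧ ∀ i, ((b.2 i : Fin (n + 1)) : ℕ) = cd T i)
    (by
      rintro S ⟨hS, A, T, hAT⟩
      have hc : (std false A T).card = n := by rw [← card_of_same hAT, hS]
      refine ⟨(fun i => ⟨cd A i, ?_⟩, fun i => ⟨cd T i, ?_⟩), Set.mem_univ _, A, T, hAT,
        fun i => rfl, fun i => rfl⟩
      · have := cd_le A i
        have := card_A_le A T
        omega
      · have := cd_le T i
        have := card_T_le A T
        omega)
    (by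
      rintro S - S' - b ⟨A, T, h1, h2, h3⟩ ⟨A', T', h1', h2', h3'⟩
      have e1 : cd A = cd A' := by
        funext i; rw [← h2 i, ← h2' i]
      have e2 : cd T = cd T' := by
        funext i; rw [← h3 i, ← h3' i]
      obtain ⟨f, f1, f2, f3, f4⟩ := one_side A A' e1
      obtain ⟨h, g1, g2, g3, g4⟩ := one_side T T' e2
      exact sameConf_trans h1 (sameConf_trans (map0 ⟨f, h, f1, f2, g1, g2, f3, g3, f4, g4⟩)
        (sameConf_symm h1')))
  refine ⟨key.1, key.2.trans ?_⟩
  rw [Set.ncard_univ, Nat.card_eq_fintype_card, Fintype.card_prod, Fintype.card_fun,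
    Fintype.card_fin, Fintype.card_fin, one_mul]
  apply le_of_eq
  ring

end Pool.Agent.W12.C6.Fa
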