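import Pool.Agent.W902.C6.Stm2
import Pool.Agent.W409.C6.Wei
import Pool.Agent.W919.C6.Let

set_option autoImplicit false

namespace Pool.Agent.W12.C6

open Pool.Agent.W902.C6

theorem memm : S_mem := by
  classical
  intro A T I x hx
  unfold word at hx
  rw [List.mem_map] at hx
  obtain ⟨r, hr, rfl⟩ := hx
  rw [Finset.mem_sort, Finset.mem_filter] at hr
  exact ⟨r, hr.2, hr.1, rfl⟩

lemma word_ne_nil {A T : Finset ℝ} {I : Set ℝ} {r : ℝ} (h : r ∈ posns A T) (hI : r ∈ I) :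
    word A T I ≠ [] := by
  classical
  intro h0
  unfold word at h0
  rw [List.map_eq_nil_iff] at h0
  have : r ∈ ((posns A T).filter (fun x => x ∈ I)).sort (· ≤ ·) := by
    rw [Finset.mem_sort, Finset.mem_filter]
    exact ⟨h, hI⟩
  rw [h0] at this
  exact List.not_mem_nil this

theorem cwm : S_cw := by
  classical
  rintro A T ⟨h0A, h0T, ⟨s₀, hs₀A, hs₀, hsmin, hst⟩, ⟨t₀, ht₀T, ht₀, htmax, hts⟩⟩ ⟨t, htT, ht⟩
  have ht1 : 1 < t₀ := lt_of_lt_of_le ht (htmax t htT)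
  refine ⟨⟨Pool.Agent.W409.C6.Wei.nz A T _, ?_⟩, ⟨Pool.Agent.W409.C6.Wei.nz A T _, ?_⟩,
    Pool.Agent.W409.C6.Wei.nz A T _⟩
  · have hne : word A T (Set.Iio 0) ≠ [] :=
      word_ne_nil (r := s₀) ((Pool.Agent.W409.C6.Wei.mem_posns A T s₀).2 (Or.inl hs₀A)) hs₀
    obtain ⟨x, l', hxl⟩ := List.exists_cons_of_ne_nil hne
    refine ⟨x, l', hxl, ?_⟩
    obtain ⟨r, hrI, hrP, hrx, hrmin⟩ := Pool.Agent.W919.C6.Let.headm A T _ x l' hxl
    have h1 : r ≤ s₀ := hrmin s₀ ((Pool.Agent.W409.C6.Wei.mem_posns A T s₀).2 (Or.inl hs₀A)) hs₀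
    have hr0 : r < 0 := hrI
    have h2 : s₀ ≤ r := by
      rcases (Pool.Agent.W409.C6.Wei.mem_posns A T r).1 hrP with h | h
      · exact hsmin r h
      · have h3 := hst r⁻¹ h (inv_lt_zero.2 hr0)
        have h4 : s₀ * r⁻¹ * r ≤ 1 * r := mul_le_mul_of_nonpos_right h3 hr0.le
        rw [mul_assoc, inv_mul_cancel₀ hr0.ne, mul_one, one_mul] at h4
        exact h4
    have h5 : r = s₀ := le_antisymm h1 h2
    rw [← hrx, h5]
    simp [lett, hs₀A]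
  · have hpos : t₀⁻¹ ∈ posns A T :=
      (Pool.Agent.W409.C6.Wei.mem_posns A T _).2 (Or.inr (by rw [inv_inv]; exact ht₀T))
    have hI : t₀⁻¹ ∈ Set.Ioo (0 : ℝ) 1 := ⟨inv_pos.2 ht₀, inv_lt_one_of_one_lt₀ ht1⟩
    have hne : word A T (Set.Ioo 0 1) ≠ [] := word_ne_nil hpos hI
    obtain ⟨x, l', hxl⟩ := List.exists_cons_of_ne_nil hne
    refine ⟨x, l', hxl, ?_⟩
    obtain ⟨r, hrI, hrP, hrx, hrmin⟩ := Pool.Agent.W919.C6.Let.headm A T _ x l' hxl
    have h1 : r ≤ t₀⁻¹ := hrmin _ hpos hI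
    have h2 : t₀⁻¹ ≤ r := by
      rcases (Pool.Agent.W409.C6.Wei.mem_posns A T r).1 hrP with h | h
      · have h3 := hts r h hrI.1
        rw [inv_le_iff_one_le_mul₀ ht₀]
        exact h3
      · have h3 := htmax _ h
        exact inv_le_of_inv_le₀ hrI.1 h3
    have h5 : r = t₀⁻¹ := le_antisymm h1 h2
    rw [← hrx, h5]
    simp [lett, ht₀T]

end Pool.Agent.W12.C6
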