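import Pool.Agent.W902.C6.Stm2
import Pool.Agent.W358.C6.Real
import Pool.Agent.W409.C6.Wei

set_option autoImplicit false

namespace Pool.Agent.W12.C6.R2

open Pool.Agent.W902.C6

lemma word_insert (A T : Finset ℝ) (I : Set ℝ) (hI : (1 : ℝ) ∉ I) :
    word (insert 1 A) (insert 1 T) I = word A T I := by
  classical
  have hp : (posns (insert 1 A) (insert 1 T)).filter (fun x => x ∈ I) =
      (posns A T).filter (fun x => x ∈ I) := by
    ext x
    rw [Finset.mem_filter, Finset.mem_filter, Pool.Agent.W409.C6.Wei.mem_posns,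
      Pool.Agent.W409.C6.Wei.mem_posns]
    constructor
    · rintro ⟨h, hx⟩
      have hx1 : x ≠ 1 := fun e => hI (e ▸ hx)
      have hx2 : x⁻¹ ≠ 1 := fun e => hx1 (by rw [← inv_inv x, e, inv_one])
      refine ⟨?_, hx⟩
      rcases h with h | h
      · exact Or.inl (Finset.mem_of_mem_insert_of_ne h hx1)
      · exact Or.inr (Finset.mem_of_mem_insert_of_ne h hx2)
    · rintro ⟨h, hx⟩
      refine ⟨?_, hx⟩
      rcases h with h | h
      · exact Or.inl (Finset.mem_insert_of_mem h)
      · exact Or.inr (Finset.mem_insert_of_mem h)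
  unfold word
  rw [hp]
  refine List.map_congr_left fun x hx => ?_
  rw [Finset.mem_sort, Finset.mem_filter] at hx
  have hx1 : x ≠ 1 := fun e => hI (e ▸ hx.2)
  have hx2 : x⁻¹ ≠ 1 := fun e => hx1 (by rw [← inv_inv x, e, inv_one])
  unfold lett
  simp [hx1, hx2]

theorem main : S_real2 := by
  classical
  intro o u v w hu hv hw
  obtain ⟨A, T, h1, h2, h3, h4, h5, h6, h7⟩ := Pool.Agent.W358.C6.Real.main u v w hu hv hw
  cases o with
  | false =>
    refine ⟨A, T, h1, h2, ?_, ?_, h5, h6, h7⟩
    · simp [h3]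
    · simp [h4]
  | true =>
    refine ⟨insert 1 A, insert 1 T, ?_, ?_, by simp, by simp, ?_, ?_, ?_⟩
    · rw [Finset.mem_insert, not_or]; exact ⟨by norm_num, h1⟩
    · rw [Finset.mem_insert, not_or]; exact ⟨by norm_num, h2⟩
    · rw [word_insert A T _ (by simp), h5]
    · rw [word_insert A T _ (by simp), h6]
    · rw [word_insert A T _ (by simp), h7]

end Pool.Agent.W12.C6.R2
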