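import Pool.Agent.W902.C6.Stm2

set_option autoImplicit false

open Filter

namespace Pool.Agent.W12.C6.Few

open Pool.Agent.W902.C6

lemma weight_cons (x : Lt) (l : List Lt) : weight (x :: l) = wt x + weight l := by
  simp [weight]

lemma bound (p : Lt → Bool) (z a b : Lt) (hall : ∀ x : Lt, x ≠ (false, false) → x = z ∨ x = a ∨ x = b)
    (pa : p a = true) (pb : p b = true) (wz : wt z = 1) (wa : wt a = 1) (wb : wt b = 2) :
    ∀ i r : ℕ, ∃ W : Finset (List Lt),
      (∀ l, NZ l → l.countP p ≤ r → weight l = i → l ∈ W) ∧ W.card ≤ (2 * i + 1) ^ r := by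
  classical
  intro i
  induction i using Nat.strong_induction_on with
  | _ i ih =>
    intro r
    rcases i with _ | n
    · refine ⟨{[]}, ?_, by simp⟩
      intro l hl _ hw
      rcases l with _ | ⟨x, l'⟩
      · simp
      · exfalso
        rw [weight_cons] at hw
        rcases hall x (hl x List.mem_cons_self) with rfl | rfl | rfl <;> omega
    · obtain ⟨W1, h1, c1⟩ := ih n (by omega) r
      obtain ⟨W2, h2, c2⟩ := ih n (by omega) (r - 1)
      obtain ⟨W3, h3, c3⟩ := ih (n - 1) (by omega) (r - 1)
      refine ⟨W1.image (fun l => z :: l) ∪ (if r = 0 then ∅ else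
        (W2.image (fun l => a :: l) ∪ W3.image (fun l => b :: l))), ?_, ?_⟩
      · intro l hl hc hw
        rcases l with _ | ⟨x, l'⟩
        · exfalso
          simp [weight] at hw
        · have hl' : NZ l' := fun y hy => hl y (List.mem_cons_of_mem _ hy)
          rw [weight_cons] at hw
          rw [Finset.mem_union]
          rcases hall x (hl x List.mem_cons_self) with rfl | rfl | rfl
          · left
            refine Finset.mem_image.2 ⟨l', h1 l' hl' ?_ (by omega), rfl⟩
            rw [List.countP_cons] at hc
            omega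
          · right
            rw [List.countP_cons_of_pos pa] at hc
            rw [if_neg (by omega)]
            exact Finset.mem_union_left _ (Finset.mem_image.2 ⟨l', h2 l' hl' (by omega) (by omega), rfl⟩)
          · right
            rw [List.countP_cons_of_pos pb] at hc
            rw [if_neg (by omega)]
            exact Finset.mem_union_right _ (Finset.mem_image.2 ⟨l', h3 l' hl' (by omega) (by omega), rfl⟩)
      · rcases r with _ | r
        · rw [if_pos rfl, Finset.union_empty]
          exact Finset.card_image_le.trans (by simpa using c1)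
        · rw [if_neg (by omega)]
          simp only [Nat.add_sub_cancel] at c2 c3
          have e3 : W3.card ≤ (2 * n + 1) ^ r := c3.trans (Nat.pow_le_pow_left (by omega) r)
          calc _ ≤ (W1.image (fun l => z :: l)).card +
                ((W2.image (fun l => a :: l)).card + (W3.image (fun l => b :: l)).card) :=
                (Finset.card_union_le _ _).trans (Nat.add_le_add_left (Finset.card_union_le _ _) _)
            _ ≤ (2 * n + 1) ^ (r + 1) + ((2 * n + 1) ^ r + (2 * n + 1) ^ r) :=
                Nat.add_le_add (Finset.card_image_le.trans c1)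
                  (Nat.add_le_add (Finset.card_image_le.trans c2) (Finset.card_image_le.trans e3))
            _ = (2 * n + 1) ^ r * (2 * n + 3) := by ring
            _ ≤ (2 * (n + 1) + 1) ^ r * (2 * n + 3) :=
                Nat.mul_le_mul_right _ (Nat.pow_le_pow_left (by omega) r)
            _ = (2 * (n + 1) + 1) ^ (r + 1) := by ring

lemma one_lt_al : 1 < al := by
  unfold al
  have : 0 < Real.sqrt 2 := Real.sqrt_pos.2 (by norm_num)
  linarith

lemma lim (p : Lt → Bool) (z a b : Lt) (hall : ∀ x : Lt, x ≠ (false, false) → x = z ∨ x = a ∨ x = b)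
    (pa : p a = true) (pb : p b = true) (wz : wt z = 1) (wa : wt a = 1) (wb : wt b = 2) :
    Tendsto (fun i : ℕ => (({l : List Lt | NZ l ∧ l.countP p < 4 ∧
    weight l = i}.ncard : ℕ) : ℝ) / al ^ i) atTop (nhds 0) := by
  have hlim : Tendsto (fun i : ℕ => 27 * ((i : ℝ) ^ 3 / al ^ i)) atTop (nhds 0) := by
    have := (tendsto_pow_const_div_const_pow_of_one_lt 3 one_lt_al).const_mul (27 : ℝ)
    rwa [mul_zero] at this
  have hpos : ∀ i : ℕ, 0 < al ^ i := fun i => pow_pos (lt_trans one_pos one_lt_al) i
  refine tendsto_of_tendsto_of_tendsto_of_le_of_le' tendsto_const_nhds hlim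
    (Eventually.of_forall fun i => div_nonneg (Nat.cast_nonneg _) (hpos i).le) ?_
  filter_upwards [eventually_ge_atTop 1] with i hi
  obtain ⟨W, hW, hc⟩ := bound p z a b hall pa pb wz wa wb i 3
  have h1 : {l : List Lt | NZ l ∧ l.countP p < 4 ∧ weight l = i} ⊆ (W : Set (List Lt)) := by
    rintro l ⟨h1, h2, h3⟩
    exact hW l h1 (by omega) h3
  have h2 : ({l : List Lt | NZ l ∧ l.countP p < 4 ∧ weight l = i}).ncard ≤ (2 * i + 1) ^ 3 := by
    refine (Set.ncard_le_ncard h1 W.finite_toSet).trans ?_
    rw [Set.ncard_coe_finset]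
    exact hc
  have h3 : ((({l : List Lt | NZ l ∧ l.countP p < 4 ∧ weight l = i}).ncard : ℕ) : ℝ) ≤
      27 * (i : ℝ) ^ 3 := by
    have h4 : (2 * i + 1) ^ 3 ≤ 27 * i ^ 3 := by
      calc (2 * i + 1) ^ 3 ≤ (3 * i) ^ 3 := Nat.pow_le_pow_left (by omega) 3
        _ = 27 * i ^ 3 := by ring
    exact_mod_cast h2.trans h4
  rw [← mul_div_assoc]
  exact div_le_div_of_nonneg_right h3 (hpos i).le

theorem main : S_few := by
  refine ⟨?_, ?_⟩
  · refine lim (fun x => x.1) (false, true) (true, false) (true, true) ?_ rfl rfl rfl rfl rfl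
    rintro ⟨x, y⟩ h
    revert h
    revert x y
    decide
  · refine lim (fun x => x.2) (true, false) (false, true) (true, true) ?_ rfl rfl rfl rfl rfl
    rintro ⟨x, y⟩ h
    revert h
    revert x y
    decide

end Pool.Agent.W12.C6.Few
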